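import Pool.Agent.Q331.FC.Stmts

set_option autoImplicit false

namespace Pool.Agent.Q68.FC.TEqui

open MeasureTheory Pool.Agent.Q331.FC

theorem main : Pool.Agent.Q331.FC.TaskEqui := by
  intro hPres E _ ν _ φ hφ
  have hP : MeasurePreserving (sh (E := E)) (iid ν) (iid ν) := hPres E ν
  have h1 : ∀ i : ℕ, ∀ᵐ y ∂iid ν, φ (sh (sh^[i] y)) = sh (φ (sh^[i] y)) := fun i =>
    (hP.iterate i).quasiMeasurePreserving.ae hφ
  filter_upwards [ae_all_iff.2 h1] with y hy i
  induction i with
  | zero => rfl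
  | succ i ih =>
    rw [Function.iterate_succ_apply', Function.iterate_succ_apply', hy i, ih]

end Pool.Agent.Q68.FC.TEqui
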